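import Pool.Agent.H176.DT.Stm2

/-!
# DT2-FIELD: the residue field of a key polynomial and its valuation
-/

set_option autoImplicit false

universe u

namespace Pool.Agent.H872.DT2

open Pool.Agent.H176.DT Pool.Agent.W418.LU2 IsLocalRing Polynomial

section

variable {E F : Type u} [Field E] [Field F] [Algebra E F] {V : ValuationSubring F} {θ : F}
  {ϕ : E[X]} {n : ℕ} {β : Fin n → E[X]}

theorem aeval_ne (hθ : Transcendental E θ) {f : E[X]} (hf : f ≠ 0) : aeval θ f ≠ 0 := fun h =>
  hθ ⟨f, hf, h⟩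

theorem irr (h : KP V θ ϕ β) : Irreducible ϕ := by
  rw [h.monic.irreducible_iff_natDegree]
  refine ⟨?_, ?_⟩
  · intro h1
    have h2 := h.deg
    rw [h1, natDegree_one] at h2
    exact lt_irrefl 0 h2
  · intro f g hf hg hfg
    by_contra hcon
    push Not at hcon
    have hd : f.natDegree + g.natDegree = ϕ.natDegree := by
      rw [← hfg, hf.natDegree_mul hg]
    have h1 : f.degree < ϕ.degree := by
      rw [degree_eq_natDegree hf.ne_zero, degree_eq_natDegree h.monic.ne_zero]
      have : f.natDegree < ϕ.natDegree := by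
        have := Nat.pos_of_ne_zero hcon.2
        omega
      exact_mod_cast this
    have h2 : g.degree < ϕ.degree := by
      rw [degree_eq_natDegree hg.ne_zero, degree_eq_natDegree h.monic.ne_zero]
      have : g.natDegree < ϕ.natDegree := by
        have := Nat.pos_of_ne_zero hcon.1
        omega
      exact_mod_cast this
    have h3 := h.key f g h1 h2 hf.ne_zero hg.ne_zero
    rw [hfg] at h3
    have h4 : ϕ /ₘ ϕ = 1 := by
      have h5 := mul_divByMonic_cancel_left (1 : E[X]) h.monic
      rwa [mul_one] at h5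
    rw [h4, one_mul] at h3
    exact lt_irrefl _ h3

/-- the representative of degree less than `deg ϕ` -/
noncomputable def L (h : ϕ.Monic) (x : AdjoinRoot ϕ) : E[X] := AdjoinRoot.modByMonicHom h x

theorem mk_L (h : ϕ.Monic) (x : AdjoinRoot ϕ) : AdjoinRoot.mk ϕ (L h x) = x :=
  AdjoinRoot.mk_leftInverse h x

theorem L_mk (h : ϕ.Monic) (f : E[X]) : L h (AdjoinRoot.mk ϕ f) = f %ₘ ϕ :=
  AdjoinRoot.modByMonicHom_mk h f

theorem L_deg (h : ϕ.Monic) (x : AdjoinRoot ϕ) : (L h x).degree < ϕ.degree := by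
  rw [← mk_L h x, L_mk]
  exact degree_modByMonic_lt _ h

theorem L_small (h : ϕ.Monic) {f : E[X]} (hf : f.degree < ϕ.degree) :
    L h (AdjoinRoot.mk ϕ f) = f := by
  rw [L_mk, (modByMonic_eq_self_iff h).2 hf]

theorem L_zero (h : ϕ.Monic) : L h (0 : AdjoinRoot ϕ) = 0 := map_zero _

theorem L_add (h : ϕ.Monic) (x y : AdjoinRoot ϕ) : L h (x + y) = L h x + L h y := map_add _ _ _

theorem L_ne (h : ϕ.Monic) {x : AdjoinRoot ϕ} (hx : x ≠ 0) : L h x ≠ 0 := fun h0 => hx (by
  rw [← mk_L h x, h0, map_zero])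

theorem L_mul (h : ϕ.Monic) (x y : AdjoinRoot ϕ) :
    L h (x * y) = L h x * L h y - (L h x * L h y /ₘ ϕ) * ϕ := by
  have h1 : x * y = AdjoinRoot.mk ϕ (L h x * L h y) := by
    rw [map_mul, mk_L, mk_L]
  have h2 := modByMonic_add_div (L h x * L h y) ϕ
  calc L h (x * y) = (L h x * L h y) %ₘ ϕ := by
        conv_lhs => rw [h1]
        rw [L_mk]
    _ = _ := by rw [eq_sub_iff_add_eq, mul_comm (_ /ₘ _), h2]

theorem deg_one (h : KP V θ ϕ β) : (1 : E[X]).degree < ϕ.degree := by
  rw [degree_one, degree_eq_natDegree h.monic.ne_zero]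
  exact_mod_cast h.deg

/-- the valuation of the residue field -/
noncomputable def NN (hθ : Transcendental E θ) (h : KP V θ ϕ β) :
    Valuation (AdjoinRoot ϕ) V.ValueGroup where
  toFun x := V.valuation (aeval θ (L h.monic x))
  map_zero' := by rw [L_zero, map_zero, map_zero]
  map_one' := by
    have h1 : (1 : AdjoinRoot ϕ) = AdjoinRoot.mk ϕ 1 := (map_one _).symm
    rw [h1, L_small h.monic (deg_one h), map_one, map_one]
  map_mul' x y := by
    rcases eq_or_ne x 0 with hx | hx
    · rw [hx, zero_mul, L_zero, map_zero, map_zero, zero_mul]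
    rcases eq_or_ne y 0 with hy | hy
    · rw [hy, mul_zero, L_zero, map_zero, map_zero, mul_zero]
    have h1 := h.key (L h.monic x) (L h.monic y) (L_deg _ _) (L_deg _ _) (L_ne _ hx) (L_ne _ hy)
    rw [L_mul, map_sub, Valuation.map_sub_eq_of_lt_left _ h1, map_mul, map_mul]
  map_add_le_max' x y := by
    rw [L_add, map_add]
    exact Valuation.map_add _ _ _

theorem NN_apply (hθ : Transcendental E θ) (h : KP V θ ϕ β) (x : AdjoinRoot ϕ) :
    NN hθ h x = V.valuation (aeval θ (L h.monic x)) := rfl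

end

/-- FIELD -/
theorem field : S2_field.{u} := by
  intro E F _ _ _ V θ ϕ n β hθ h
  haveI : Fact (Irreducible ϕ) := ⟨irr h⟩
  refine ⟨AdjoinRoot ϕ, inferInstance, inferInstance, (NN hθ h).valuationSubring,
    AdjoinRoot.mkₐ ϕ, ?_, ?_, ?_, ?_⟩
  · ext a
    rw [ValuationSubring.mem_comap, ValuationSubring.mem_comap,
      Valuation.mem_valuationSubring_iff, NN_apply]
    have h1 : algebraMap E (AdjoinRoot ϕ) a = AdjoinRoot.mk ϕ (C a) := rfl
    have h2 : (C a : E[X]).degree < ϕ.degree :=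
      lt_of_le_of_lt degree_C_le (by
        have := deg_one h
        rwa [degree_one] at this)
    rw [h1, L_small h.monic h2, aeval_C, ValuationSubring.valuation_le_one_iff]
  · intro x
    exact ⟨L h.monic x, L_deg _ _, mk_L h.monic x⟩
  · intro f
    exact AdjoinRoot.mk_eq_zero
  · intro f g hf hg
    have h1 := (NN hθ h).isEquiv_valuation_valuationSubring (AdjoinRoot.mk ϕ f)
      (AdjoinRoot.mk ϕ g)
    rw [NN_apply, NN_apply, L_small h.monic hf, L_small h.monic hg] at h1
    exact h1.symm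

end Pool.Agent.H872.DT2
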